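import Mathlib

/-!
Project MC (helper994), piece BSM, part a: the number of the classes modulo a primorial which are admissible for a tuple.
-/

set_option autoImplicit false

namespace Run7.h888.MC

open Finset

/-- the number of the classes `b` modulo `W` for which all `b + 1 + h i` are coprime to `W` -/
def NC {k : ℕ} (h : Fin k → ℕ) (W : ℕ) : ℕ := #((range W).filter (fun b => ∀ i, (b + 1 + h i).Coprime W))

lemma NC_mul {k : ℕ} (h : Fin k → ℕ) (W p : ℕ) (hW : 0 < W) (hp : 0 < p) (hc : W.Coprime p) :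
    NC h W * NC h p ≤ NC h (W * p) := by
  unfold NC
  rw [← card_product]
  refine card_le_card_of_injOn (fun x => (Nat.chineseRemainder hc x.1 x.2 : ℕ)) ?_ ?_
  · intro x hx
    rw [mem_coe, mem_product, mem_filter, mem_filter, mem_range, mem_range] at hx
    obtain ⟨⟨h1, h2⟩, h3, h4⟩ := hx
    rw [mem_coe, mem_filter, mem_range]
    have g := (Nat.chineseRemainder hc x.1 x.2).2
    refine ⟨Nat.chineseRemainder_lt_mul hc _ _ hW.ne' hp.ne', fun i => ?_⟩
    apply Nat.Coprime.mul_right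
    · have e1 : (Nat.chineseRemainder hc x.1 x.2 : ℕ) + 1 + h i ≡ x.1 + 1 + h i [MOD W] :=
        (g.1.add_right 1).add_right (h i)
      unfold Nat.Coprime
      rw [e1.gcd_eq]
      exact h2 i
    · have e1 : (Nat.chineseRemainder hc x.1 x.2 : ℕ) + 1 + h i ≡ x.2 + 1 + h i [MOD p] :=
        (g.2.add_right 1).add_right (h i)
      unfold Nat.Coprime
      rw [e1.gcd_eq]
      exact h4 i
  · intro x hx y hy hxy
    rw [mem_coe, mem_product, mem_filter, mem_filter, mem_range, mem_range] at hx hy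
    simp only at hxy
    have g := (Nat.chineseRemainder hc x.1 x.2).2
    have g' := (Nat.chineseRemainder hc y.1 y.2).2
    rw [← hxy] at g'
    have e1 : x.1 = y.1 := Nat.ModEq.eq_of_lt_of_lt (g.1.symm.trans g'.1) hx.1.1 hy.1.1
    have e2 : x.2 = y.2 := Nat.ModEq.eq_of_lt_of_lt (g.2.symm.trans g'.2) hx.2.1 hy.2.1
    exact Prod.ext e1 e2

lemma NC_prime_pos {k : ℕ} (h : Fin k → ℕ) (p : ℕ) (hp : p.Prime) (hx : ∃ x : ℕ, ∀ i, ¬ p ∣ x + h i) :
    1 ≤ NC h p := by
  obtain ⟨x, hx⟩ := hx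
  unfold NC
  rw [Nat.one_le_iff_ne_zero, Ne, card_eq_zero, ← Ne, ← nonempty_iff_ne_empty]
  refine ⟨(x + p - 1) % p, ?_⟩
  rw [mem_filter, mem_range]
  refine ⟨Nat.mod_lt _ hp.pos, fun i => ?_⟩
  rw [Nat.coprime_comm, hp.coprime_iff_not_dvd]
  intro hd
  apply hx i
  have e1 : (x + p - 1) % p + 1 + h i ≡ x + p - 1 + 1 + h i [MOD p] :=
    ((Nat.mod_modEq _ _).add_right 1).add_right (h i)
  have e2 : x + p - 1 + 1 + h i = x + h i + p := by
    have := hp.pos
    omega
  rw [e2] at e1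
  have h3 : p ∣ x + h i + p := (e1.dvd_iff dvd_rfl).1 hd
  exact (Nat.dvd_add_left dvd_rfl).1 h3

lemma NC_prime_ge {k : ℕ} (h : Fin k → ℕ) (p : ℕ) (hp : p.Prime) : p ≤ NC h p + k := by
  unfold NC
  have h1 : #((range p).filter (fun b => ¬ ∀ i, (b + 1 + h i).Coprime p)) ≤ k := by
    have hsub : (range p).filter (fun b => ¬ ∀ i, (b + 1 + h i).Coprime p) ⊆
        (univ : Finset (Fin k)).biUnion (fun i => (range p).filter (fun b => p ∣ b + 1 + h i)) := by
      intro b hb
      rw [mem_filter] at hb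
      obtain ⟨hb1, hb2⟩ := hb
      push Not at hb2
      obtain ⟨i, hi⟩ := hb2
      rw [mem_biUnion]
      refine ⟨i, mem_univ _, ?_⟩
      rw [mem_filter]
      refine ⟨hb1, ?_⟩
      by_contra hc
      apply hi
      change (b + 1 + h i).Coprime p
      rw [Nat.coprime_comm, hp.coprime_iff_not_dvd]
      exact hc
    refine (card_le_card hsub).trans (card_biUnion_le.trans ?_)
    have h2 : ∀ i : Fin k, #((range p).filter (fun b => p ∣ b + 1 + h i)) ≤ 1 := by
      intro i
      rw [card_le_one]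
      intro a ha b hb
      rw [mem_filter, mem_range] at ha hb
      have e1 : a + 1 + h i ≡ b + 1 + h i [MOD p] :=
        ((Nat.modEq_zero_iff_dvd).2 ha.2).trans ((Nat.modEq_zero_iff_dvd).2 hb.2).symm
      have e2 : a ≡ b [MOD p] := by
        have e3 := Nat.ModEq.add_right_cancel' (h i) e1
        exact Nat.ModEq.add_right_cancel' 1 e3
      exact Nat.ModEq.eq_of_lt_of_lt e2 ha.1 hb.1
    calc ∑ i : Fin k, #((range p).filter (fun b => p ∣ b + 1 + h i)) ≤ ∑ i : Fin k, 1 := sum_le_sum (fun i _ => h2 i)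
      _ = k := by simp
  have h3 := card_filter_add_card_filter_not (s := range p) (fun b => ∀ i, (b + 1 + h i).Coprime p)
  rw [card_range] at h3
  omega

lemma primorial_step (n : ℕ) (hp : (n + 1).Prime) : primorial (n + 1) = primorial n * (n + 1) := by
  unfold primorial
  rw [Finset.range_add_one (n := n + 1), filter_insert, if_pos hp, prod_insert (by simp), mul_comm]

lemma primorial_step' (n : ℕ) (hp : ¬ (n + 1).Prime) : primorial (n + 1) = primorial n := by
  unfold primorial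
  rw [Finset.range_add_one (n := n + 1), filter_insert, if_neg hp]

lemma primorial_coprime (n : ℕ) (hp : (n + 1).Prime) : (primorial n).Coprime (n + 1) := by
  unfold primorial
  apply Nat.Coprime.prod_left
  intro q hq
  rw [mem_filter, mem_range] at hq
  exact (Nat.coprime_primes hq.2 hp).2 (by omega)

lemma NC_pos {k : ℕ} (h : Fin k → ℕ) (hadm : ∀ p : ℕ, p.Prime → ∃ x : ℕ, ∀ i, ¬ p ∣ x + h i) (n : ℕ) :
    1 ≤ NC h (primorial n) := by
  induction n with
  | zero =>
    have : primorial 0 = 1 := by decide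
    rw [this]
    unfold NC
    simp
  | succ n ih =>
    by_cases hp : (n + 1).Prime
    · rw [primorial_step n hp]
      refine le_trans ?_ (NC_mul h _ _ (primorial_pos n) (by omega) (primorial_coprime n hp))
      exact Nat.one_le_iff_ne_zero.2 (Nat.mul_ne_zero (by omega) (by
        have := NC_prime_pos h _ hp (hadm _ hp); omega))
    · rw [primorial_step' n hp]
      exact ih

lemma local_ineq (k p : ℕ) (hp : 1 ≤ p) (hk : k ≤ p) :
    (p : ℝ) * (1 - (k : ℝ) ^ 2 / (p : ℝ) ^ 2) * (1 - 1 / (p : ℝ)) ^ k ≤ p - k := by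
  have hp0 : (0 : ℝ) < p := by exact_mod_cast hp
  have hkp : (k : ℝ) ≤ p := by exact_mod_cast hk
  have hk0 : (0 : ℝ) ≤ k := Nat.cast_nonneg _
  obtain ⟨x, hx⟩ : ∃ x : ℝ, x = 1 / (p : ℝ) := ⟨_, rfl⟩
  have hx0 : 0 < x := by rw [hx]; positivity
  have hx1 : x ≤ 1 := by
    rw [hx, div_le_one hp0]; exact_mod_cast hp
  have hpx : (p : ℝ) * x = 1 := by rw [hx]; field_simp
  have hkx : (k : ℝ) * x ≤ 1 := by rw [← hpx]; gcongr
  have h1 : (1 - x) ^ k * (1 + k * x) ≤ 1 := by
    have h2 : 1 + (k : ℝ) * x ≤ (1 + x) ^ k := one_add_mul_le_pow (by linarith) k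
    calc (1 - x) ^ k * (1 + k * x) ≤ (1 - x) ^ k * (1 + x) ^ k := by
          apply mul_le_mul_of_nonneg_left h2
          exact pow_nonneg (by linarith) _
      _ = ((1 - x) * (1 + x)) ^ k := by rw [mul_pow]
      _ ≤ 1 := by
          apply pow_le_one₀
          · apply mul_nonneg <;> linarith
          · nlinarith
  have e1 : (k : ℝ) ^ 2 / (p : ℝ) ^ 2 = (k * x) ^ 2 := by rw [hx]; field_simp
  rw [e1, ← hx]
  have h3 : 0 ≤ 1 - (k : ℝ) * x := by linarith
  calc (p : ℝ) * (1 - (k * x) ^ 2) * (1 - x) ^ k = p * (1 - k * x) * ((1 - x) ^ k * (1 + k * x)) := by ring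
    _ ≤ p * (1 - k * x) * 1 := by gcongr
    _ = p - k * (p * x) := by ring
    _ = p - k := by rw [hpx, mul_one]

lemma tele (k n : ℕ) (hn : 2 * k ^ 2 ≤ n) (hn1 : 1 ≤ n) :
    1 + 2 * (k : ℝ) ^ 2 / ((n + 1 : ℕ) : ℝ) ≤ (1 + 2 * (k : ℝ) ^ 2 / n) * (1 - (k : ℝ) ^ 2 / ((n + 1 : ℕ) : ℝ) ^ 2) := by
  have hn0 : (0 : ℝ) < n := by exact_mod_cast hn1
  have hn2 : 2 * (k : ℝ) ^ 2 ≤ n := by exact_mod_cast hn
  push_cast
  obtain ⟨q, hq⟩ : ∃ q : ℝ, q = (k : ℝ) ^ 2 := ⟨_, rfl⟩
  rw [← hq] at hn2 ⊢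
  have hq0 : 0 ≤ q := by rw [hq]; positivity
  have h1 : (1 + 2 * q / n) * (1 - q / ((n : ℝ) + 1) ^ 2) - (1 + 2 * q / ((n : ℝ) + 1)) =
      q * (n + 2 - 2 * q) / (n * (n + 1) ^ 2) := by
    field_simp
    ring
  have h2 : 0 ≤ q * (n + 2 - 2 * q) / (n * ((n : ℝ) + 1) ^ 2) := by
    apply div_nonneg
    · apply mul_nonneg hq0
      linarith
    · positivity
  linarith

theorem bsm_plain (k : ℕ) (h : Fin k → ℕ) (hadm : ∀ p : ℕ, p.Prime → ∃ x : ℕ, ∀ i, ¬ p ∣ x + h i) :
    ∃ c : ℝ, 0 < c ∧ ∃ M : ℕ, ∀ n : ℕ, M ≤ n →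
      c * (primorial n * ((Nat.totient (primorial n) : ℝ) / primorial n) ^ k) ≤ (NC h (primorial n) : ℝ) := by
  obtain ⟨M, hM⟩ : ∃ M : ℕ, M = 2 * k ^ 2 + k + 1 := ⟨_, rfl⟩
  obtain ⟨D, hD⟩ : ∃ D : ℕ → ℝ, D = fun n => (primorial n * ((Nat.totient (primorial n) : ℝ) / primorial n) ^ k) := ⟨_, rfl⟩
  have hW0 : ∀ n, (0 : ℝ) < primorial n := fun n => by exact_mod_cast primorial_pos n
  have hT0 : ∀ n, (0 : ℝ) < Nat.totient (primorial n) := fun n => by
    exact_mod_cast Nat.totient_pos.2 (primorial_pos n)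
  have hD0 : ∀ n, 0 < D n := fun n => by
    rw [hD]
    have := hW0 n
    have := hT0 n
    positivity
  obtain ⟨c, hc⟩ : ∃ c : ℝ, c = 1 / ((1 + 2 * (k : ℝ) ^ 2 / M) * D M) := ⟨_, rfl⟩
  have hM0 : (0 : ℝ) < M := by exact_mod_cast (by omega : 0 < M)
  have hc0 : 0 < c := by
    rw [hc]
    have := hD0 M
    positivity
  have key : ∀ n, M ≤ n → c * (1 + 2 * (k : ℝ) ^ 2 / n) * D n ≤ (NC h (primorial n) : ℝ) := by
    intro n hn
    induction n, hn using Nat.le_induction with
    | base =>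
      have h1 : (1 : ℝ) ≤ NC h (primorial M) := by exact_mod_cast NC_pos h hadm M
      refine le_trans (le_of_eq ?_) h1
      rw [hc]
      have := hD0 M
      field_simp
    | succ n hn ih =>
      have hn0 : (0 : ℝ) < n := by exact_mod_cast (by omega : 0 < n)
      by_cases hp : (n + 1).Prime
      · have h1 := NC_mul h _ _ (primorial_pos n) (by omega : 0 < n + 1) (primorial_coprime n hp)
        have h1r : (NC h (primorial n) : ℝ) * NC h (n + 1) ≤ NC h (primorial (n + 1)) := by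
          rw [primorial_step n hp]
          exact_mod_cast h1
        refine le_trans ?_ h1r
        have h2 := NC_prime_ge h (n + 1) hp
        have h2r : ((n + 1 : ℕ) : ℝ) - k ≤ NC h (n + 1) := by
          have : ((n + 1 : ℕ) : ℝ) ≤ NC h (n + 1) + k := by exact_mod_cast h2
          linarith
        have h3 := local_ineq k (n + 1) (by omega) (by omega)
        have h4 := tele k n (by omega) (by omega)
        have hDs : D (n + 1) = D n * (((n + 1 : ℕ) : ℝ) * (1 - 1 / ((n + 1 : ℕ) : ℝ)) ^ k) := by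
          rw [hD]
          simp only
          rw [primorial_step n hp, Nat.totient_mul (primorial_coprime n hp), Nat.totient_prime hp]
          have e1 : ((n + 1 - 1 : ℕ) : ℝ) = (n : ℝ) := by simp
          have e2 : (1 : ℝ) - 1 / ((n + 1 : ℕ) : ℝ) = (n : ℝ) / ((n + 1 : ℕ) : ℝ) := by
            push_cast
            field_simp
            ring
          rw [e2, Nat.cast_mul, Nat.cast_mul, e1, mul_div_mul_comm, mul_pow]
          ring
        have hnc : (0 : ℝ) ≤ NC h (primorial n) := Nat.cast_nonneg _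
        have h5 : (0 : ℝ) ≤ (1 - 1 / ((n + 1 : ℕ) : ℝ)) ^ k := by
          apply pow_nonneg
          rw [sub_nonneg, div_le_one (by positivity)]
          push_cast
          linarith
        have hDn := hD0 n
        calc c * (1 + 2 * (k : ℝ) ^ 2 / ((n + 1 : ℕ) : ℝ)) * D (n + 1)
            ≤ c * ((1 + 2 * (k : ℝ) ^ 2 / n) * (1 - (k : ℝ) ^ 2 / ((n + 1 : ℕ) : ℝ) ^ 2)) * D (n + 1) := by
              have := hD0 (n + 1)
              gcongr
          _ = (c * (1 + 2 * (k : ℝ) ^ 2 / n) * D n) *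
              (((n + 1 : ℕ) : ℝ) * (1 - (k : ℝ) ^ 2 / ((n + 1 : ℕ) : ℝ) ^ 2) * (1 - 1 / ((n + 1 : ℕ) : ℝ)) ^ k) := by
              rw [hDs]; ring
          _ ≤ (c * (1 + 2 * (k : ℝ) ^ 2 / n) * D n) * (((n + 1 : ℕ) : ℝ) - k) := by
              apply mul_le_mul_of_nonneg_left h3
              positivity
          _ ≤ (NC h (primorial n) : ℝ) * (((n + 1 : ℕ) : ℝ) - k) := by
              apply mul_le_mul_of_nonneg_right ih
              have : (k : ℝ) ≤ ((n + 1 : ℕ) : ℝ) := by exact_mod_cast (by omega : k ≤ n + 1)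
              linarith
          _ ≤ (NC h (primorial n) : ℝ) * NC h (n + 1) := by
              apply mul_le_mul_of_nonneg_left h2r hnc
      · have hDs : D (n + 1) = D n := by
          rw [hD]
          simp only
          rw [primorial_step' n hp]
        rw [primorial_step' n hp, hDs]
        refine le_trans ?_ ih
        have hDn := hD0 n
        have : 2 * (k : ℝ) ^ 2 / ((n + 1 : ℕ) : ℝ) ≤ 2 * (k : ℝ) ^ 2 / n := by
          apply div_le_div_of_nonneg_left (by positivity) hn0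
          push_cast
          linarith
        gcongr
  refine ⟨c, hc0, M, ?_⟩
  intro n hn
  refine le_trans ?_ (key n hn)
  have h1 := hD0 n
  rw [hD] at h1 ⊢
  simp only at h1 ⊢
  have hn0 : (0 : ℝ) < n := by exact_mod_cast (by omega : 0 < n)
  have h2 : (0 : ℝ) ≤ 2 * (k : ℝ) ^ 2 / n := by positivity
  have h3 : c * 1 ≤ c * (1 + 2 * (k : ℝ) ^ 2 / n) := by gcongr; linarith
  rw [mul_one] at h3
  exact mul_le_mul_of_nonneg_right h3 h1.le

end Run7.h888.MC
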