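import Pool.Agent.Run7.h994.MC.Stm
import Pool.Agent.Run7.h888.MC.BSMa

/-! Piece BSM of project MC (helper994). -/

set_option autoImplicit false

namespace Run7.h888.MC

open Finset
open Pool.Agent.H361R2.PP (HH Wm)

/-- **BSM**. -/
theorem bsm (k : ℕ) : Run7.h994.MC.S_BSM k := by
  intro h _ hadm
  obtain ⟨c, hc, M, hM⟩ := bsm_plain k h hadm
  refine ⟨c, hc, ⌈Real.exp (Real.exp (4 * M))⌉₊, ?_⟩
  intro X hX
  have h1 : Real.exp (Real.exp (4 * M)) ≤ X := (Nat.le_ceil _).trans (by exact_mod_cast hX)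
  have hX0 : (0 : ℝ) < X := (Real.exp_pos _).trans_le h1
  have h2 : Real.exp (4 * M) ≤ Real.log X := (Real.le_log_iff_exp_le hX0).2 h1
  have hl0 : 0 < Real.log X := (Real.exp_pos _).trans_le h2
  have h3 : 4 * (M : ℝ) ≤ Real.log (Real.log X) := (Real.le_log_iff_exp_le hl0).2 h2
  have h4 : M ≤ HH X := by
    unfold HH
    apply Nat.le_floor
    linarith
  have h5 := hM (HH X) h4
  unfold NC at h5
  unfold Wm
  exact h5

end Run7.h888.MC
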