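import Mathlib

/-!
Project MC (helper994), piece GEO, part a: the values `F(n) + a` and the fractional parts of `s v^(1/d) + t`.
The lemmas `pow_diff`, `approx` (helper994, `Run7/h994/BPD/FMa.lean`) and `core` (helper973, `Run7/h973/BPG/FM.lean`) are copied.
-/

set_option autoImplicit false

namespace Run7.h888.MC

open Finset Filter Topology
open scoped Polynomial

lemma pow_diff (d : ℕ) (y u : ℝ) (hu : 0 ≤ u) (huy : u ≤ y) :
    d * u ^ (d - 1) * (y - u) ≤ y ^ d - u ^ d ∧ y ^ d - u ^ d ≤ d * y ^ (d - 1) * (y - u) := by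
  have h := geom_sum₂_mul y u d
  rw [← h]
  have hy : 0 ≤ y := hu.trans huy
  constructor
  · apply mul_le_mul_of_nonneg_right _ (by linarith)
    calc (d : ℝ) * u ^ (d - 1) = ∑ i ∈ range d, u ^ (d - 1) := by simp
      _ ≤ _ := by
        apply Finset.sum_le_sum
        intro i hi
        rw [Finset.mem_range] at hi
        calc u ^ (d - 1) = u ^ i * u ^ (d - 1 - i) := by rw [← pow_add]; congr 1; omega
          _ ≤ y ^ i * u ^ (d - 1 - i) := by gcongr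
  · apply mul_le_mul_of_nonneg_right _ (by linarith)
    calc ∑ i ∈ range d, y ^ i * u ^ (d - 1 - i) ≤ ∑ i ∈ range d, y ^ (d - 1) := by
          apply Finset.sum_le_sum
          intro i hi
          rw [Finset.mem_range] at hi
          calc y ^ i * u ^ (d - 1 - i) ≤ y ^ i * y ^ (d - 1 - i) := by gcongr
            _ = y ^ (d - 1) := by rw [← pow_add]; congr 1; omega
      _ = _ := by simp

lemma approx (F : ℤ[X]) {e : ℕ} (he : F.natDegree = e + 2) {L : ℕ} (hL : (L : ℤ) = F.leadingCoeff)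
    (hL1 : 1 ≤ L) {β : ℝ} (hβ : β = (F.coeff (e + 1) : ℝ) / ((e + 2) * L)) :
    ∃ C : ℝ, 0 ≤ C ∧ ∀ n : ℕ, 1 ≤ n →
      |((F.eval (n : ℤ) : ℤ) : ℝ) - L * ((n : ℝ) + β) ^ (e + 2)| ≤ C * (n : ℝ) ^ e := by
  set G : ℝ[X] := F.map (Int.castRingHom ℝ) -
    Polynomial.C (L : ℝ) * (Polynomial.X + Polynomial.C β) ^ (e + 2) with hG
  have hL0 : (0 : ℝ) < L := by exact_mod_cast hL1
  have hcoeff : ∀ m, G.coeff m = (F.coeff m : ℝ) - L * (β ^ (e + 2 - m) * ((e + 2).choose m : ℝ)) := by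
    intro m
    rw [hG, Polynomial.coeff_sub, Polynomial.coeff_map, Polynomial.coeff_C_mul,
      Polynomial.coeff_X_add_C_pow]
    simp
  have hdeg : G.natDegree ≤ e := by
    rw [Polynomial.natDegree_le_iff_coeff_eq_zero]
    intro m hm
    rw [hcoeff]
    rcases Nat.lt_or_ge (e + 2) m with h | h
    · rw [Polynomial.coeff_eq_zero_of_natDegree_lt (by rw [he]; exact h), Nat.choose_eq_zero_of_lt h]
      simp
    · rcases Nat.lt_or_ge m (e + 2) with h' | h'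
      · have hm1 : m = e + 1 := by omega
        subst hm1
        have h3 : (e + 2).choose (e + 1) = e + 2 := Nat.choose_succ_self_right (e + 1)
        rw [h3]
        have h4 : e + 2 - (e + 1) = 1 := by omega
        rw [h4, pow_one, hβ]
        have h5 : ((e : ℝ) + 2) ≠ 0 := by positivity
        push_cast
        field_simp
        ring
      · have hm2 : m = e + 2 := by omega
        subst hm2
        have h3 : F.coeff (e + 2) = L := by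
          rw [hL, Polynomial.leadingCoeff, he]
        rw [h3]
        simp
  refine ⟨∑ i ∈ range (e + 1), |G.coeff i|, Finset.sum_nonneg (fun _ _ => abs_nonneg _), ?_⟩
  intro n hn
  have hn1 : (1 : ℝ) ≤ n := by exact_mod_cast hn
  have h1 : ((F.eval (n : ℤ) : ℤ) : ℝ) - L * ((n : ℝ) + β) ^ (e + 2) = G.eval (n : ℝ) := by
    rw [hG, Polynomial.eval_sub, Polynomial.eval_mul, Polynomial.eval_pow, Polynomial.eval_add,
      Polynomial.eval_X, Polynomial.eval_C, Polynomial.eval_C]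
    congr 1
    have := Polynomial.eval_intCast_map (Int.castRingHom ℝ) F (n : ℤ)
    rw [Int.cast_natCast] at this
    rw [this]
    simp
  rw [h1, Polynomial.eval_eq_sum_range' (n := e + 1) (by omega), Finset.sum_mul]
  refine (Finset.abs_sum_le_sum_abs _ _).trans (Finset.sum_le_sum ?_)
  intro i hi
  rw [Finset.mem_range] at hi
  rw [abs_mul, abs_pow, abs_of_nonneg (by linarith : (0 : ℝ) ≤ n)]
  apply mul_le_mul_of_nonneg_left _ (abs_nonneg _)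
  exact pow_le_pow_right₀ hn1 (by omega)

lemma core {F : ℤ[X]} {e : ℕ} {L : ℕ} {β C : ℝ} (hL1 : 1 ≤ L) (hC : 0 ≤ C)
    (happ : ∀ n : ℕ, 1 ≤ n → |((F.eval (n : ℤ) : ℤ) : ℝ) - L * ((n : ℝ) + β) ^ (e + 2)| ≤ C * (n : ℝ) ^ e)
    (N A K v : ℕ) (R y φ δ : ℝ) (n : ℕ) (hK : 1 ≤ K) (hn1 : 1 ≤ n) (hnN : n ≤ N)
    (hv : (v : ℝ) = L * y ^ (e + 2)) (hy : y = n + β + φ) (hyR : y ≤ R) (hyR2 : R / 2 ≤ n + β) (hR : 0 < R)
    (hδ : 0 < δ) (h1 : δ ≤ φ) (h2 : φ ≤ K * δ - δ) (hδA : L * (e + 2) * R ^ (e + 1) * (K * δ) = A)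
    (hA : 2 ^ (e + 1) * K * (C + 1) * (N : ℝ) ^ e ≤ A) :
    ∃ a ∈ Icc 1 A, (v : ℤ) = F.eval (n : ℤ) + (a : ℕ) := by
  have hL0 : (0 : ℝ) < L := by exact_mod_cast hL1
  have hK0 : (0 : ℝ) < K := by exact_mod_cast hK
  have hN1 : (1 : ℝ) ≤ N := by exact_mod_cast hn1.trans hnN
  have hnb0 : 0 ≤ (n : ℝ) + β := by linarith
  have hy0 : 0 ≤ y := by linarith
  obtain ⟨D, hD⟩ : ∃ D : ℤ, D = (v : ℤ) - F.eval (n : ℤ) := ⟨_, rfl⟩
  have hDr : (D : ℝ) = (v : ℝ) - ((F.eval (n : ℤ) : ℤ) : ℝ) := by rw [hD]; push_cast; ring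
  have hpd := pow_diff (e + 2) y ((n : ℝ) + β) hnb0 (by linarith)
  have hyφ : y - ((n : ℝ) + β) = φ := by linarith
  rw [hyφ] at hpd
  have he1 : e + 2 - 1 = e + 1 := by omega
  rw [he1] at hpd
  push_cast at hpd
  have happn := abs_le.mp (happ n hn1)
  have hne : (n : ℝ) ^ e ≤ (N : ℝ) ^ e := by
    have : (n : ℝ) ≤ N := by exact_mod_cast hnN
    gcongr
  have hCn : C * (n : ℝ) ^ e ≤ C * (N : ℝ) ^ e := by gcongr
  have hNe : (1 : ℝ) ≤ (N : ℝ) ^ e := one_le_pow₀ hN1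
  have hAK : 2 ^ (e + 1) * (C + 1) * (N : ℝ) ^ e ≤ L * (e + 2) * R ^ (e + 1) * δ := by
    have h3 : K * (2 ^ (e + 1) * (C + 1) * (N : ℝ) ^ e) ≤ K * (L * (e + 2) * R ^ (e + 1) * δ) := by
      calc K * (2 ^ (e + 1) * (C + 1) * (N : ℝ) ^ e) = 2 ^ (e + 1) * K * (C + 1) * (N : ℝ) ^ e := by ring
        _ ≤ A := hA
        _ = L * (e + 2) * R ^ (e + 1) * (K * δ) := hδA.symm
        _ = _ := by ring
    exact le_of_mul_le_mul_left h3 hK0
  have hφ0 : 0 ≤ φ := hδ.le.trans h1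
  have hup : (D : ℝ) ≤ A := by
    have h3 : L * y ^ (e + 2) - L * ((n : ℝ) + β) ^ (e + 2) ≤ L * (e + 2) * R ^ (e + 1) * (K * δ - δ) := by
      calc L * y ^ (e + 2) - L * ((n : ℝ) + β) ^ (e + 2) = L * (y ^ (e + 2) - ((n : ℝ) + β) ^ (e + 2)) := by ring
        _ ≤ L * ((e + 2) * y ^ (e + 1) * φ) := by
            apply mul_le_mul_of_nonneg_left hpd.2 hL0.le
        _ ≤ L * ((e + 2) * R ^ (e + 1) * (K * δ - δ)) := by gcongr
        _ = _ := by ring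
    have h4 : L * (e + 2) * R ^ (e + 1) * (K * δ - δ) = A - L * (e + 2) * R ^ (e + 1) * δ := by
      rw [← hδA]; ring
    have h5 : 1 * ((C + 1) * (N : ℝ) ^ e) ≤ 2 ^ (e + 1) * ((C + 1) * (N : ℝ) ^ e) :=
      mul_le_mul_of_nonneg_right (one_le_pow₀ (by norm_num)) (by positivity)
    have h6 : 0 ≤ (N : ℝ) ^ e := by positivity
    rw [hDr, hv]
    linarith [happn.1, happn.2]
  have hlow : (0 : ℝ) < D := by
    have h3 : L * (e + 2) * (R / 2) ^ (e + 1) * δ ≤ L * y ^ (e + 2) - L * ((n : ℝ) + β) ^ (e + 2) := by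
      calc L * (e + 2) * (R / 2) ^ (e + 1) * δ = L * ((e + 2) * (R / 2) ^ (e + 1) * δ) := by ring
        _ ≤ L * ((e + 2) * ((n : ℝ) + β) ^ (e + 1) * φ) := by gcongr
        _ ≤ L * (y ^ (e + 2) - ((n : ℝ) + β) ^ (e + 2)) := by
            apply mul_le_mul_of_nonneg_left hpd.1 hL0.le
        _ = _ := by ring
    have h4 : (C + 1) * (N : ℝ) ^ e ≤ L * (e + 2) * (R / 2) ^ (e + 1) * δ := by
      have h6 : (0 : ℝ) < 2 ^ (e + 1) := by positivity
      have h5 : 2 ^ (e + 1) * (L * (e + 2) * (R / 2) ^ (e + 1) * δ) = L * (e + 2) * R ^ (e + 1) * δ := by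
        rw [div_pow]
        field_simp
      refine le_of_mul_le_mul_left ?_ h6
      rw [h5]
      refine le_trans (le_of_eq ?_) hAK
      ring
    rw [hDr, hv]
    linarith [happn.1, happn.2]
  have hD1 : 0 < D := by exact_mod_cast hlow
  have hDA : D ≤ A := by exact_mod_cast hup
  refine ⟨D.toNat, ?_, ?_⟩
  · rw [Finset.mem_Icc]
    omega
  · have : ((D.toNat : ℕ) : ℤ) = D := Int.toNat_of_nonneg hD1.le
    rw [this, hD]
    ring


theorem geo_plain (F : ℤ[X]) (hd : 2 ≤ F.natDegree) (hl : 0 < F.leadingCoeff) :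
    ∃ (β c C : ℝ) (N₀ : ℕ), 0 < c ∧ 1 ≤ C ∧ ∀ N A : ℕ, N₀ ≤ N →
      (N : ℝ) ^ (F.natDegree - 2) * Real.log N ≤ A → (A : ℝ) ≤ c * (N : ℝ) ^ (F.natDegree - 1) →
      ∃ (X : ℕ) (κ : ℝ), c * (N : ℝ) ^ F.natDegree ≤ X ∧ (X : ℝ) ≤ C * (N : ℝ) ^ F.natDegree ∧
        c * (A / (N : ℝ) ^ (F.natDegree - 1)) ≤ κ ∧ κ ≤ 1 / 4 ∧
        ∀ v : ℕ, X ≤ v → v < 2 * X →
          Int.fract ((F.leadingCoeff : ℝ) ^ (-1 / (F.natDegree : ℝ)) * (v : ℝ) ^ (1 / (F.natDegree : ℝ)) + (β - κ)) < κ →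
          ∃ n ∈ Icc 1 N, ∃ a ∈ Icc 1 A, (v : ℤ) = F.eval (n : ℤ) + (a : ℕ) := by
  obtain ⟨e, he⟩ : ∃ e, F.natDegree = e + 2 := ⟨F.natDegree - 2, by omega⟩
  obtain ⟨L, hL⟩ : ∃ L : ℕ, (L : ℤ) = F.leadingCoeff := ⟨F.leadingCoeff.toNat, Int.toNat_of_nonneg hl.le⟩
  have hL1 : 1 ≤ L := by
    have : (0 : ℤ) < L := by rw [hL]; exact hl
    omega
  have hL0 : (0 : ℝ) < L := by exact_mod_cast hL1
  have hLr : (1 : ℝ) ≤ L := by exact_mod_cast hL1
  obtain ⟨β, hβ⟩ : ∃ β : ℝ, β = (F.coeff (e + 1) : ℝ) / ((e + 2) * L) := ⟨_, rfl⟩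
  obtain ⟨C0, hC0, happ⟩ := approx F he hL hL1 hβ
  have hlc : (F.leadingCoeff : ℝ) = L := by rw [← hL]; simp
  rw [he, hlc]
  have he1 : e + 2 - 1 = e + 1 := by omega
  have he2 : e + 2 - 2 = e := by omega
  rw [he1, he2]
  have hp : (0 : ℝ) < 2 ^ (e + 1) := by positivity
  have hE : (0 : ℝ) < (e : ℝ) + 2 := by positivity
  obtain ⟨c, hc⟩ : ∃ c : ℝ, c = min ((L : ℝ) / 2 ^ (e + 4)) (min ((2 : ℝ) ^ (e + 1) / (3 * L * (e + 2))) (3 * (L : ℝ) * (e + 2) / 2 ^ (e + 3))) := ⟨_, rfl⟩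
  have hc0 : 0 < c := by
    rw [hc]
    refine lt_min (by positivity) (lt_min (by positivity) (by positivity))
  have hc1 : c ≤ L / 2 ^ (e + 4) := by rw [hc]; exact min_le_left _ _
  have hc2 : c ≤ 2 ^ (e + 1) / (3 * L * (e + 2)) := by
    rw [hc]; exact (min_le_right _ _).trans (min_le_left _ _)
  have hc3 : c ≤ 3 * L * (e + 2) / 2 ^ (e + 3) := by
    rw [hc]; exact (min_le_right _ _).trans (min_le_right _ _)
  obtain ⟨N₁, hN₁⟩ := exists_nat_ge (Real.exp (2 ^ (e + 1) * 3 * (C0 + 1)))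
  obtain ⟨N₂, hN₂⟩ := exists_nat_ge (2 * (5 + 2 * |β|))
  refine ⟨-β, c, L + 1, max (max N₁ N₂) 2, hc0, by linarith, ?_⟩
  intro N A hN hA1 hA2
  have hNN1 : N₁ ≤ N := (le_max_left _ _).trans ((le_max_left _ _).trans hN)
  have hNN2 : N₂ ≤ N := (le_max_right _ _).trans ((le_max_left _ _).trans hN)
  have hNr1 : (N₁ : ℝ) ≤ N := by exact_mod_cast hNN1
  have hNr2 : (N₂ : ℝ) ≤ N := by exact_mod_cast hNN2
  have hN2 : 2 ≤ N := (le_max_right _ _).trans hN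
  have hN0 : (0 : ℝ) < N := by exact_mod_cast (by omega : 0 < N)
  have hlog : 2 ^ (e + 1) * 3 * (C0 + 1) ≤ Real.log N := by
    rw [Real.le_log_iff_exp_le hN0]
    exact hN₁.trans hNr1
  obtain ⟨R, hR⟩ : ∃ R : ℝ, R = N / 2 := ⟨_, rfl⟩
  have hNR : (N : ℝ) = 2 * R := by rw [hR]; ring
  have hR5 : 5 + 2 * |β| ≤ R := by
    rw [hR]
    linarith
  have hβ0 : 0 ≤ |β| := abs_nonneg β
  have hR0 : 0 < R := by linarith
  have hRe : 0 < R ^ (e + 2) := by positivity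
  have hRbig : 25 ≤ R ^ (e + 2) := by
    calc (25 : ℝ) = 5 ^ 2 * 1 := by norm_num
      _ ≤ R ^ 2 * R ^ e := by
          have h1 : (1 : ℝ) ≤ R ^ e := one_le_pow₀ (by linarith)
          have h2 : (5 : ℝ) ^ 2 ≤ R ^ 2 := by
            apply pow_le_pow_left₀ (by norm_num)
            linarith
          exact mul_le_mul h2 h1 (by norm_num) (by positivity)
      _ = R ^ (e + 2) := by ring
  obtain ⟨X, hX⟩ : ∃ X : ℕ, X = ⌊L * R ^ (e + 2) / 2⌋₊ := ⟨_, rfl⟩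
  have hXle : (X : ℝ) ≤ L * R ^ (e + 2) / 2 := by
    rw [hX]; exact Nat.floor_le (by positivity)
  have hXge : L * R ^ (e + 2) / 2 - 1 ≤ X := by
    have := Nat.lt_floor_add_one ((L : ℝ) * R ^ (e + 2) / 2)
    rw [← hX] at this
    linarith
  obtain ⟨κ, hκ⟩ : ∃ κ : ℝ, κ = A / (3 * (L * (e + 2) * R ^ (e + 1))) := ⟨_, rfl⟩
  have hRe1 : 0 < R ^ (e + 1) := by positivity
  have hNe1 : (N : ℝ) ^ (e + 1) = 2 ^ (e + 1) * R ^ (e + 1) := by rw [hNR, mul_pow]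
  have hNe2 : (N : ℝ) ^ (e + 2) = 2 ^ (e + 2) * R ^ (e + 2) := by rw [hNR, mul_pow]
  have hA0 : (0 : ℝ) < A := by
    refine lt_of_lt_of_le ?_ hA1
    have : 0 < Real.log N := Real.log_pos (by exact_mod_cast (by omega : 1 < N))
    positivity
  have hκ0 : 0 < κ := by rw [hκ]; positivity
  have hκ4 : κ ≤ 1 / 4 := by
    rw [hκ, div_le_iff₀ (by positivity)]
    calc (A : ℝ) ≤ c * (N : ℝ) ^ (e + 1) := hA2
      _ ≤ 3 * L * (e + 2) / 2 ^ (e + 3) * (N : ℝ) ^ (e + 1) := by gcongr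
      _ = 1 / 4 * (3 * (L * (e + 2) * R ^ (e + 1))) := by
          rw [hNe1]
          have h3 : (2 : ℝ) ^ (e + 3) = 4 * 2 ^ (e + 1) := by ring
          rw [h3]
          field_simp
  refine ⟨X, κ, ?_, ?_, ?_, hκ4, ?_⟩
  · refine le_trans ?_ hXge
    have h1 : c * (N : ℝ) ^ (e + 2) ≤ L * R ^ (e + 2) / 4 := by
      calc c * (N : ℝ) ^ (e + 2) ≤ L / 2 ^ (e + 4) * (N : ℝ) ^ (e + 2) := by gcongr
        _ = L * R ^ (e + 2) / 4 := by
            rw [hNe2]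
            have h3 : (2 : ℝ) ^ (e + 4) = 4 * 2 ^ (e + 2) := by ring
            rw [h3]
            field_simp
    have h2 : 1 * 25 ≤ (L : ℝ) * R ^ (e + 2) := mul_le_mul hLr hRbig (by norm_num) hL0.le
    linarith
  · refine hXle.trans ?_
    rw [hNe2]
    have h2 : (1 : ℝ) ≤ 2 ^ (e + 2) := one_le_pow₀ (by norm_num)
    have h3 : 0 < (L : ℝ) * R ^ (e + 2) := by positivity
    have h4 : (L : ℝ) * R ^ (e + 2) * 1 ≤ (L : ℝ) * R ^ (e + 2) * 2 ^ (e + 2) := by gcongr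
    have h5 : 0 < (2 : ℝ) ^ (e + 2) * R ^ (e + 2) := by positivity
    nlinarith
  · rw [hκ]
    calc c * (A / (N : ℝ) ^ (e + 1)) ≤ 2 ^ (e + 1) / (3 * L * (e + 2)) * (A / (N : ℝ) ^ (e + 1)) := by gcongr
      _ = A / (3 * (L * (e + 2) * R ^ (e + 1))) := by
          rw [hNe1]
          field_simp
  · intro v hv1 hv2 hfr
    have hv1r : (X : ℝ) ≤ v := by exact_mod_cast hv1
    have hv2r : (v : ℝ) < 2 * X := by exact_mod_cast hv2
    obtain ⟨y, hy⟩ : ∃ y : ℝ, y = (L : ℝ) ^ (-1 / ((e + 2 : ℕ) : ℝ)) * (v : ℝ) ^ (1 / ((e + 2 : ℕ) : ℝ)) := ⟨_, rfl⟩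
    rw [← hy] at hfr
    have hy0 : 0 ≤ y := by rw [hy]; positivity
    have hd0 : ((e + 2 : ℕ) : ℝ) ≠ 0 := by positivity
    have hyv : (v : ℝ) = L * y ^ (e + 2) := by
      rw [hy, mul_pow, ← Real.rpow_natCast ((L : ℝ) ^ (-1 / ((e + 2 : ℕ) : ℝ))), ← Real.rpow_mul hL0.le,
        ← Real.rpow_natCast ((v : ℝ) ^ (1 / ((e + 2 : ℕ) : ℝ))), ← Real.rpow_mul (Nat.cast_nonneg _),
        div_mul_cancel₀ _ hd0, div_mul_cancel₀ _ hd0, Real.rpow_one, Real.rpow_neg_one]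
      field_simp
    have hyR : y ≤ R := by
      refine le_of_lt (lt_of_pow_lt_pow_left₀ (e + 2) hR0.le ?_)
      have h1 : (L : ℝ) * y ^ (e + 2) < L * R ^ (e + 2) := by
        rw [← hyv]; linarith
      exact lt_of_mul_lt_mul_left h1 hL0.le
    have hyR2 : 3 / 5 * R ≤ y := by
      refine le_of_pow_le_pow_left₀ (n := e + 2) (by omega) hy0 ?_
      have h1 : (L : ℝ) * (3 / 5 * R) ^ (e + 2) ≤ L * y ^ (e + 2) := by
        rw [← hyv]
        refine le_trans ?_ (hXge.trans hv1r)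
        rw [mul_pow]
        have h2 : (3 / 5 : ℝ) ^ (e + 2) ≤ (3 / 5) ^ 2 := pow_le_pow_of_le_one (by norm_num) (by norm_num) (by omega)
        have h3 : (L : ℝ) * ((3 / 5) ^ (e + 2) * R ^ (e + 2)) ≤ L * ((3 / 5) ^ 2 * R ^ (e + 2)) := by gcongr
        have h4 : 1 * 25 ≤ (L : ℝ) * R ^ (e + 2) := mul_le_mul hLr hRbig (by norm_num) hL0.le
        linarith
      exact le_of_mul_le_mul_left h1 hL0
    obtain ⟨m, hm⟩ : ∃ m : ℤ, m = ⌊y + (-β - κ)⌋ := ⟨_, rfl⟩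
    obtain ⟨f, hf⟩ : ∃ f : ℝ, f = Int.fract (y + (-β - κ)) := ⟨_, rfl⟩
    have hf0 : 0 ≤ f := by rw [hf]; exact Int.fract_nonneg _
    rw [← hf] at hfr
    have hmf : (m : ℝ) + f = y + (-β - κ) := by rw [hm, hf]; exact Int.floor_add_fract _
    have hab := abs_le.mp (le_refl |β|)
    have hm0 : (0 : ℝ) < m := by linarith [hab.1, hab.2]
    have hm0' : 0 < m := by exact_mod_cast hm0
    obtain ⟨n, hn⟩ : ∃ n : ℕ, (n : ℤ) = m := ⟨m.toNat, Int.toNat_of_nonneg hm0'.le⟩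
    have hnr : (n : ℝ) = m := by rw [← hn]; simp
    have hn1 : 1 ≤ n := by omega
    have hnN : n ≤ N := by
      have h1 : (n : ℝ) ≤ N := by
        rw [hnr, hNR]
        linarith [hab.1, hab.2]
      exact_mod_cast h1
    have hres := core (F := F) (e := e) (L := L) (β := β) (C := C0) hL1 hC0 happ N A 3 v R y (κ + f) κ n
      (by norm_num) hn1 hnN hyv (by rw [hnr]; linarith) hyR (by rw [hnr]; linarith) hR0 hκ0 (by linarith)
      (by push_cast; linarith) (by rw [hκ]; push_cast; field_simp) (by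
        refine le_trans ?_ hA1
        have h1 : (2 : ℝ) ^ (e + 1) * 3 * (C0 + 1) * (N : ℝ) ^ e ≤ Real.log N * (N : ℝ) ^ e := by gcongr
        push_cast
        linarith)
    obtain ⟨a, ha1, ha2⟩ := hres
    exact ⟨n, Finset.mem_Icc.2 ⟨hn1, hnN⟩, a, ha1, ha2⟩

end Run7.h888.MC
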