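import Pool.Agent.Run7.h994.MC.Stm
import Pool.Agent.Run7.h888.MC.GEOa

/-! Piece GEO of project MC (helper994). -/

set_option autoImplicit false

namespace Run7.h888.MC

open Finset
open scoped Polynomial

/-- **GEO**. -/
theorem geo (F : ℤ[X]) (hd : 2 ≤ F.natDegree) (hl : 0 < F.leadingCoeff) : Run7.h994.MC.S_GEO F := by
  obtain ⟨β, c, C, N₀, hc, hC, h⟩ := geo_plain F hd hl
  refine ⟨β, c, C, N₀, hc, hC, ?_⟩
  intro N A hN h1 h2
  obtain ⟨X, κ, g1, g2, g3, g4, g5⟩ := h N A hN h1 h2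
  refine ⟨X, κ, g1, g2, g3, g4, ?_⟩
  intro v hv
  unfold Run7.h994.MC.TT at hv
  rw [mem_filter, mem_Ico] at hv
  exact g5 v hv.1.1 hv.1.2 hv.2

end Run7.h888.MC
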