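import Pool.Agent.Run7.h994.MC.Stm
import Pool.Agent.Run7.h462.BPD.Ti

/-! Piece TIA of project MC (helper994): the second derivative test for the phases `s h (k l)^(1/d) + α l`. The proof follows `Pool/Agent/Run7/h462/BPG/Ti.lean`. -/

set_option autoImplicit false

namespace Run7.h888.MC

open Finset
open Pool.Agent.H469R2.NK (e norm_e e_add conj_e)
open Pool.Agent.Q83.WG (dd)
open Run7.h462.BPD (DD2 DD2_eq DD2_anti final_ineq')
open Run7.h462.BPG (lam lam_pos lam_le_quarter lam_le_inv)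

/-- **TIA**. -/
theorem tia (s : ℝ) (hs : 0 < s) (d : ℕ) (hd : 2 ≤ d) : Run7.h994.MC.S_TIA s d := by
  have hd0 : (0 : ℝ) < d := by exact_mod_cast (by omega : 0 < d)
  obtain ⟨θ, hθd⟩ : ∃ θ : ℝ, θ = 1 / (d : ℝ) := ⟨_, rfl⟩
  have hθ0 : 0 < θ := by rw [hθd]; positivity
  have hθ2 : θ ≤ 1 / 2 := by
    rw [hθd]
    apply one_div_le_one_div_of_le (by norm_num)
    exact_mod_cast hd
  have hlam0 := lam_pos (show 1 ≤ d by omega)
  have hlam4 := lam_le_quarter d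
  have hlamd := lam_le_inv d
  rw [← hθd] at hlamd
  unfold Run7.h994.MC.S_TIA
  rw [← hθd]
  obtain ⟨σ, hσ⟩ : ∃ σ : ℝ, σ = s * (θ * (1 - θ)) := ⟨_, rfl⟩
  have hσ0 : 0 < σ := by
    rw [hσ]
    apply mul_pos hs (mul_pos hθ0 (by linarith))
  refine ⟨64 + 64 / σ + 64 * σ + 2 * (16 * σ + 4) ^ 2, by
    have : 0 < 64 / σ := by positivity
    have : 0 < 64 * σ := by positivity
    have : 0 ≤ 2 * (16 * σ + 4) ^ 2 := by positivity
    linarith, ?_⟩
  intro X X' h k b α hX hX' hh hhX hk hkX hb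
  have hX0 : (0:ℝ) < X := by exact_mod_cast hX
  have hX1 : (1:ℝ) ≤ X := by exact_mod_cast hX
  have hk0 : (0:ℝ) < k := by exact_mod_cast hk
  have hk1 : (1:ℝ) ≤ k := by exact_mod_cast hk
  have hh0 : (0:ℝ) < h := by exact_mod_cast hh
  have hh1 : (1:ℝ) ≤ h := by exact_mod_cast hh
  set l : ℝ := 1 + Real.log X with hl
  have hl1 : 1 ≤ l := by rw [hl]; linarith [Real.log_nonneg hX1]
  obtain ⟨P, hP⟩ : ∃ P : ℝ, P = √(h : ℝ) * (X : ℝ) ^ (1 / 4 : ℝ) := ⟨_, rfl⟩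
  obtain ⟨Q, hQ⟩ : ∃ Q : ℝ, Q = (X : ℝ) ^ (1 - lam d / 2) / (√(h : ℝ) * k) := ⟨_, rfl⟩
  have hsh : 0 < √(h : ℝ) := Real.sqrt_pos.2 hh0
  have hsh2 : √(h : ℝ) ^ 2 = h := Real.sq_sqrt hh0.le
  have hP0 : 0 < P := by rw [hP]; positivity
  have hQ0 : 0 < Q := by rw [hQ]; positivity
  have hP1 : 1 ≤ P := by
    rw [hP]
    exact one_le_mul_of_one_le_of_one_le (Real.one_le_sqrt.2 hh1) (Real.one_le_rpow hX1 (by norm_num))
  rw [← hP, ← hQ]
  have hc0 : 0 < 64 + 64 / σ + 64 * σ := by positivity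
  have hbX : b ≤ 2 * X / k := hb.trans (Nat.div_le_div_right hX')
  have hkX1 : k ≤ X := le_trans (by nlinarith [Nat.pow_le_pow_right hk (by norm_num : 1 ≤ 4)]) hkX
  set m := X / k with hm
  have hm1 : 1 ≤ m := Nat.div_pos hkX1 hk
  by_cases hbm : b ≤ m
  · rw [Ioc_eq_empty (by omega), sum_empty, norm_zero]; positivity
  push Not at hbm
  have hb2X : b ≤ 2 * X := hbX.trans (Nat.div_le_self _ _)
  -- small X
  by_cases hXs : (X : ℝ) < (16 * σ + 4) ^ 2
  · have h1 : ‖∑ l ∈ Ioc m b, e (s * h * ((k * l : ℕ) : ℝ) ^ θ + α * l)‖ ≤ 2 * X := by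
      refine (norm_sum_le _ _).trans ?_
      simp only [norm_e, sum_const, Nat.card_Ioc, nsmul_eq_mul, mul_one]
      have h2 : b - m ≤ 2 * X := by omega
      exact_mod_cast h2
    refine h1.trans ?_
    have h2 : 1 ≤ (P + Q) * l := one_le_mul_of_one_le_of_one_le (by linarith) hl1
    calc 2 * (X : ℝ) ≤ 2 * (16 * σ + 4) ^ 2 := by linarith
      _ ≤ (64 + 64 / σ + 64 * σ + 2 * (16 * σ + 4) ^ 2) * 1 := by linarith
      _ ≤ (64 + 64 / σ + 64 * σ + 2 * (16 * σ + 4) ^ 2) * ((P + Q) * l) := by gcongr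
      _ = _ := by ring
  push Not at hXs
  -- the parameter `μ`
  obtain ⟨μ, hμ⟩ : ∃ μ : ℝ, μ = h * (k : ℝ) ^ 2 * (X : ℝ) ^ (θ - 2) := ⟨_, rfl⟩
  have hμ0 : 0 < μ := by rw [hμ]; positivity
  -- reversal and conjugation
  set L := b - m with hL
  have hL1 : 1 ≤ L := by omega
  set x : ℕ → ℝ := fun n => -(s * h * ((k:ℝ) * ((b - n : ℕ) : ℝ)) ^ θ + α * ((b - n : ℕ) : ℝ)) with hx
  have hsum : ‖∑ l ∈ Ioc m b, e (s * h * ((k * l : ℕ) : ℝ) ^ θ + α * l)‖ = ‖∑ n ∈ range L, e (x n)‖ := by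
    rw [← Complex.norm_conj, map_sum]
    congr 1
    refine sum_nbij' (fun l => b - l) (fun n => b - n) ?_ ?_ ?_ ?_ ?_
    · intro l hl; rw [mem_Ioc] at hl; rw [mem_range]; omega
    · intro n hn; rw [mem_range] at hn; rw [mem_Ioc]; omega
    · intro l hl; rw [mem_Ioc] at hl; omega
    · intro n hn; rw [mem_range] at hn; omega
    · intro l hl
      rw [mem_Ioc] at hl
      rw [conj_e, hx]
      simp only
      rw [Nat.sub_sub_self hl.2]
      push_cast
      rfl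
  have hdd : ∀ n, n + 2 ≤ L → ∃ y : ℕ, b - n = y + 2 ∧ m ≤ y ∧
      dd x n = s * h * (k : ℝ) ^ θ * DD2 θ y := by
    intro n hn
    refine ⟨b - n - 2, by omega, by omega, ?_⟩
    obtain ⟨y, hy⟩ : ∃ y, b - n - 2 = y := ⟨_, rfl⟩
    have y0 : b - n = y + 2 := by omega
    have y1 : b - (n + 1) = y + 1 := by omega
    have y2 : b - (n + 2) = y := by omega
    rw [hy, dd, hx]
    simp only [y0, y1, y2]
    rw [Real.mul_rpow hk0.le (Nat.cast_nonneg _), Real.mul_rpow hk0.le (Nat.cast_nonneg _),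
      Real.mul_rpow hk0.le (Nat.cast_nonneg _)]
    unfold DD2
    push_cast
    ring
  have hkm : (X : ℝ) / 2 ≤ k * m := by
    have h1 : X < k * (m + 1) := by
      have := Nat.lt_mul_div_succ X hk
      rw [hm]; exact this
    have h2 : X ≤ 2 * (k * m) := by nlinarith
    have h3 : (X:ℝ) ≤ 2 * (k * m) := by exact_mod_cast h2
    linarith
  have hkb : (k:ℝ) * b ≤ 2 * X := by
    have h1 : k * b ≤ 2 * X := by
      calc k * b ≤ k * (2 * X / k) := Nat.mul_le_mul_left _ hbX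
        _ ≤ 2 * X := Nat.mul_div_le _ _
    exact_mod_cast h1
  have hbd : ∀ n, n + 2 ≤ L → σ * μ / 4 ≤ dd x n ∧ dd x n ≤ 4 * σ * μ := by
    intro n hn
    obtain ⟨y, hy1, hy2, hy3⟩ := hdd n hn
    have hy0 : (0:ℝ) < y := by
      have : 0 < y := by omega
      exact_mod_cast this
    obtain ⟨η, g1, g2, g3⟩ := DD2_eq θ y hy0
    have hη0 : 0 < η := by linarith
    have h1 : (X : ℝ) / 2 ≤ k * η := by
      refine hkm.trans ?_
      have : (m : ℝ) ≤ y := by exact_mod_cast hy2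
      gcongr
      linarith
    have h2 : (k:ℝ) * η ≤ 2 * X := by
      refine le_trans ?_ hkb
      have : y + 2 ≤ b := by omega
      have : (y:ℝ) + 2 ≤ b := by exact_mod_cast this
      gcongr
      linarith
    have e1 : s * h * (k : ℝ) ^ θ * DD2 θ y = σ * (h * (k : ℝ) ^ 2 * ((k : ℝ) * η) ^ (θ - 2)) := by
      rw [g3, Real.mul_rpow hk0.le hη0.le, hσ]
      have e2 : (k : ℝ) ^ θ = (k : ℝ) ^ 2 * (k : ℝ) ^ (θ - 2) := by
        rw [← Real.rpow_natCast, ← Real.rpow_add hk0]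
        congr 1
        push_cast
        ring
      rw [e2]
      ring
    have u1 : ((k : ℝ) * η) ^ (θ - 2) ≤ 4 * (X : ℝ) ^ (θ - 2) := by
      calc ((k : ℝ) * η) ^ (θ - 2) ≤ ((X : ℝ) / 2) ^ (θ - 2) :=
            Real.rpow_le_rpow_of_nonpos (by positivity) h1 (by linarith)
        _ = 2 ^ (2 - θ) * (X : ℝ) ^ (θ - 2) := by
            rw [Real.div_rpow hX0.le (by norm_num), div_eq_mul_inv, ← Real.rpow_neg (by norm_num), mul_comm]
            congr 2
            ring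
        _ ≤ 2 ^ (2 : ℝ) * (X : ℝ) ^ (θ - 2) := by
            gcongr
            · norm_num
            · linarith
        _ = _ := by norm_num
    have u2 : (X : ℝ) ^ (θ - 2) / 4 ≤ ((k : ℝ) * η) ^ (θ - 2) := by
      calc (X : ℝ) ^ (θ - 2) / 4 = 2 ^ (-2 : ℝ) * (X : ℝ) ^ (θ - 2) := by
            rw [Real.rpow_neg (by norm_num)]
            norm_num
            ring
        _ ≤ 2 ^ (θ - 2) * (X : ℝ) ^ (θ - 2) := by
            gcongr
            · norm_num
            · linarith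
        _ = (2 * (X : ℝ)) ^ (θ - 2) := by rw [Real.mul_rpow (by norm_num) hX0.le]
        _ ≤ _ := Real.rpow_le_rpow_of_nonpos (by positivity) h2 (by linarith)
    rw [hy3, e1, hμ]
    have hhk : 0 ≤ (h : ℝ) * (k : ℝ) ^ 2 := by positivity
    constructor
    · calc σ * (h * (k : ℝ) ^ 2 * (X : ℝ) ^ (θ - 2)) / 4 = σ * (h * (k : ℝ) ^ 2 * ((X : ℝ) ^ (θ - 2) / 4)) := by ring
        _ ≤ _ := by gcongr
    · calc σ * (h * (k : ℝ) ^ 2 * ((k : ℝ) * η) ^ (θ - 2)) ≤ σ * (h * (k : ℝ) ^ 2 * (4 * (X : ℝ) ^ (θ - 2))) := by gcongr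
        _ = _ := by ring
  have hhq : (h:ℝ) ≤ (X : ℝ) ^ (1 / 2 : ℝ) := by
    rw [← Real.sqrt_eq_rpow]
    apply Real.le_sqrt_of_sq_le
    exact_mod_cast hhX
  have hkq : (k:ℝ) ^ 2 ≤ (X : ℝ) ^ (1 / 2 : ℝ) := by
    rw [← Real.sqrt_eq_rpow]
    apply Real.le_sqrt_of_sq_le
    rw [← pow_mul]
    exact_mod_cast hkX
  have hμle : μ ≤ (X : ℝ) ^ (-(1 / 2) : ℝ) := by
    calc μ ≤ (X : ℝ) ^ (1 / 2 : ℝ) * (X : ℝ) ^ (1 / 2 : ℝ) * (X : ℝ) ^ (-(3 / 2) : ℝ) := by
          rw [hμ]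
          have : (X : ℝ) ^ (θ - 2) ≤ (X : ℝ) ^ (-(3 / 2) : ℝ) :=
            Real.rpow_le_rpow_of_exponent_le hX1 (by linarith)
          gcongr
      _ = _ := by
          rw [← Real.rpow_add hX0, ← Real.rpow_add hX0]
          congr 1
          norm_num
  have hLam : 4 * σ * μ ≤ 1 / 4 := by
    have h1 : 16 * σ + 4 ≤ (X : ℝ) ^ (1 / 2 : ℝ) := by
      rw [← Real.sqrt_eq_rpow]
      exact Real.le_sqrt_of_sq_le hXs
    have h2 : (X : ℝ) ^ (-(1 / 2) : ℝ) * (X : ℝ) ^ (1 / 2 : ℝ) = 1 := by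
      rw [← Real.rpow_add hX0]
      norm_num
    have h3 : μ * (16 * σ + 4) ≤ 1 := by
      rw [← h2]
      gcongr
    nlinarith
  have hvdc := Pool.Agent.Q83.WG.vdc2 x L hL1 (σ * μ / 4) (4 * σ * μ) (by positivity) hLam
    (fun n hn => (hbd n hn).1) (fun n hn => (hbd n hn).2) ?_ ?_
  · rw [hsum]
    have hLb : (L:ℝ) ≤ 2 * X / k := by
      rw [le_div_iff₀ hk0]
      have : (L:ℝ) ≤ b := by exact_mod_cast (by omega : L ≤ b)
      nlinarith
    have hL00 : (0:ℝ) < L := by exact_mod_cast hL1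
    have hlog : 1 + Real.log L ≤ 2 * l := by
      have h1 : (L:ℝ) ≤ 2 * X := by
        have : L ≤ 2 * X := by omega
        exact_mod_cast this
      have h2 : Real.log L ≤ Real.log (2 * X) := Real.log_le_log hL00 h1
      rw [Real.log_mul (by norm_num) hX0.ne'] at h2
      have h3 : Real.log 2 < 1 := by
        have := Real.log_two_lt_d9; linarith
      rw [hl]
      linarith [Real.log_nonneg hX1]
    have hfin := final_ineq' σ μ P Q l ‖∑ n ∈ range L, e (x n)‖ L hσ0 hμ0 hP0 hQ0 hl1 hL00.le ?_ ?_ ?_ ?_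
    · refine hfin.trans ?_
      have : 0 ≤ 2 * (16 * σ + 4) ^ 2 := by positivity
      have h2 : 0 ≤ (P + Q) * l := by positivity
      nlinarith
    · -- `μ L² ≤ 4 P²`
      calc μ * (L : ℝ) ^ 2 ≤ μ * (2 * X / k) ^ 2 := by gcongr
        _ = 4 * (h * ((X : ℝ) ^ (θ - 2) * (X : ℝ) ^ (2 : ℕ))) := by
            rw [hμ]
            field_simp
            ring
        _ = 4 * (h * (X : ℝ) ^ θ) := by
            rw [← Real.rpow_natCast (X : ℝ) 2, ← Real.rpow_add hX0]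
            congr 3
            push_cast
            ring
        _ ≤ 4 * (h * (X : ℝ) ^ (1 / 2 : ℝ)) := by
            have : (X : ℝ) ^ θ ≤ (X : ℝ) ^ (1 / 2 : ℝ) := Real.rpow_le_rpow_of_exponent_le hX1 hθ2
            gcongr
        _ = 4 * P ^ 2 := by
            rw [hP, mul_pow, hsh2, ← Real.rpow_natCast ((X : ℝ) ^ (1 / 4 : ℝ)), ← Real.rpow_mul hX0.le]
            norm_num
    · -- `1 / μ ≤ Q²`
      rw [hQ, div_pow, mul_pow, hsh2, div_le_div_iff₀ hμ0 (by positivity), one_mul, hμ]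
      calc (h : ℝ) * (k : ℝ) ^ 2 = ((h : ℝ) * (k : ℝ) ^ 2) * ((X : ℝ) ^ (2 - θ) * (X : ℝ) ^ (θ - 2)) := by
            rw [← Real.rpow_add hX0]
            norm_num
        _ ≤ ((h : ℝ) * (k : ℝ) ^ 2) * ((X : ℝ) ^ (2 - lam d) * (X : ℝ) ^ (θ - 2)) := by
            have : (X : ℝ) ^ (2 - θ) ≤ (X : ℝ) ^ (2 - lam d) :=
              Real.rpow_le_rpow_of_exponent_le hX1 (by linarith)
            gcongr
        _ = _ := by
            rw [← Real.rpow_natCast ((X : ℝ) ^ (1 - lam d / 2)), ← Real.rpow_mul hX0.le]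
            have e9 : (1 - lam d / 2) * ((2 : ℕ) : ℝ) = 2 - lam d := by push_cast; ring
            rw [e9]
            ring
    · -- `L ≤ 2 P Q`
      refine hLb.trans ?_
      have e1 : P * Q = (X : ℝ) ^ (5 / 4 - lam d / 2) / k := by
        rw [hP, hQ]
        have : (X : ℝ) ^ (5 / 4 - lam d / 2) = (X : ℝ) ^ (1 / 4 : ℝ) * (X : ℝ) ^ (1 - lam d / 2) := by
          rw [← Real.rpow_add hX0]
          congr 1
          ring
        rw [this]
        field_simp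
      rw [e1, mul_div_assoc]
      have h2 : (X : ℝ) ≤ (X : ℝ) ^ (5 / 4 - lam d / 2) := by
        nth_rewrite 1 [← Real.rpow_one (X : ℝ)]
        exact Real.rpow_le_rpow_of_exponent_le hX1 (by linarith)
      gcongr
    · refine hvdc.trans ?_
      gcongr
  · intro n hn
    obtain ⟨y, hy1, hy2, hy3⟩ := hdd n (by omega)
    obtain ⟨z, hz1, hz2, hz3⟩ := hdd (n + 1) (by omega)
    have hzy : y = z + 1 := by omega
    have hz0 : (0:ℝ) < z := by
      have : 0 < z := by omega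
      exact_mod_cast this
    rw [hy3, hz3]
    refine mul_le_mul_of_nonneg_left ?_ (by positivity)
    rw [hzy]; push_cast
    exact DD2_anti θ z hθ0 (by linarith) hz0
  · have : 0 < σ * μ := by positivity
    linarith

end Run7.h888.MC
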